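import Mathlib
import Pool.Agent.Helper90.QP.AllN

/-!
The Lie ring of the lower central series of the group of basis-conjugating automorphisms of a
free group of rank at least four is not a free Lie algebra modulo quadratic relations.
-/

namespace Pool.Agent.Results.MP_df4ecf_al.PSigmaNotQuadratic

open Pool.Agent.Helper90.QP Q28.FreeLieV

/-- For every `n ≥ 4` the kernel of the natural homomorphism from the free Lie ring on
`V = G/[G,G]` to `E_0^*(G)`, where `G` is the group of basis-conjugating automorphisms of the free
group of rank `n`, is not generated by its part of degree two. -/
theorem result : ∀ n : ℕ, 4 ≤ n → ¬ IsQuadratic (PSigma n) := not_quadratic_all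

end Pool.Agent.Results.MP_df4ecf_al.PSigmaNotQuadratic
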